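import Pool.Agent.Lib.MP_49fa77_co.H30.Iface

/-!
# Module EX: every nonempty family of Delaunay triangles has a boundary edge
-/

set_option autoImplicit false

namespace FT58.AS.H53

open Real MeasureTheory Set Metric Filter Relation FT58 FT58.AS

lemma dt_sub' (x y e : ℂ) : dt (x - y) e = dt x e - dt y e := by
  simp only [dt, Complex.sub_re, Complex.sub_im]; ring

open Classical in
theorem ex_st (hFA : FaS) (hDI : DiS) : ExS := by
  intro S Y hG hY ⟨c, q, r, hcqr⟩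
  obtain ⟨e, -, he⟩ := hDI S 1 1 one_pos
  have hS : ∀ y q', Lf Y y q' → y ∈ S ∧ q' ∈ S ∧ y ≠ q' ∧ ∃ s, Lf Y q' s := by
    rintro y q' ⟨s, hs⟩
    have hT := hY.tr _ _ _ hs
    exact ⟨hT.1, hT.2.1, (Tr_ne hT).1, s, y, hY.cyc _ _ _ hs⟩
  have hne : (S.filter fun y => ∃ q', Lf Y y q').Nonempty :=
    ⟨c, Finset.mem_filter.mpr ⟨(hS c q ⟨r, hcqr⟩).1, q, r, hcqr⟩⟩
  obtain ⟨y, hyV, hmax⟩ := Finset.exists_max_image _ (fun y => dt y e) hne
  obtain ⟨hyS, q₀, hq₀⟩ := Finset.mem_filter.mp hyV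
  have h1 : ∀ q', Lf Y y q' → dt (q' - y) e < 0 := by
    intro q' hq'
    obtain ⟨-, hq'S, hne', hs⟩ := hS _ _ hq'
    have h2 := hmax q' (Finset.mem_filter.mpr ⟨hq'S, hs⟩)
    have h3 := he q' hq'S y hyS (Ne.symm hne')
    rw [dt_sub'] at h3 ⊢
    exact lt_of_le_of_ne (by linarith) h3
  have h4 := hFA S Y hG hY y q₀ hq₀ e h1
  unfold Clo at h4
  push Not at h4
  obtain ⟨q', h5 | h5⟩ := h4
  · obtain ⟨⟨s, hs⟩, h6⟩ := h5
    exact ⟨y, q', s, hs, h6⟩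
  · obtain ⟨h6, s, hs⟩ := h5
    exact ⟨q', y, s, hs, h6⟩

end FT58.AS.H53
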